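import Mathlib
import Pool.Agent.R506.ProdInt

/-!
# Every set of positive integers containing 1 is a product intersection set (families indexed by `Q`)

For every infinite index set `Q`, the product intersection sets of families `(A_q)_{q ∈ Q}` of subsets of
semigroups (with infinitely many different members) are exactly the sets of positive integers containing 1.
The semigroup used is a commutative semigroup with zero, see `Pool/Agent/R506/ProdInt.lean`.
-/

set_option autoImplicit false

universe u v

namespace Pool.Agent.Results.MP_57f2ab_co.AllSets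

/-- `prodSet A h` is the set `A^h` of all products `a_1 a_2 ⋯ a_h` with all `a_i ∈ A`, for `h ≥ 1`
(the value at `h = 0` is not used). -/
def prodSet {S : Type u} [Semigroup S] (A : Set S) : ℕ → Set S
  | 0 => ∅
  | 1 => A
  | n + 2 => {x | ∃ y ∈ prodSet A (n + 1), ∃ a ∈ A, x = y * a}

/-- The product intersection set `H(A_q) = {h ≥ 1 : A^h = ⋂_q A_q^h}`, where `A = ⋂_q A_q`. -/
def interSet {S : Type u} [Semigroup S] {Q : Type v} (A : Q → Set S) : Set ℕ+ :=
  {h | prodSet (⋂ q, A q) h = ⋂ q, prodSet (A q) h}

/-- The collection `H_Q` of all product intersection sets of families `(A_q)_{q ∈ Q}` of subsets of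
semigroups `S` such that the collection of sets `{A_q : q ∈ Q}` is infinite. -/
def HQ (Q : Type v) : Set (Set ℕ+) :=
  {X | ∃ (S : Type u) (_ : Semigroup S) (A : Q → Set S), (Set.range A).Infinite ∧ X = interSet A}

lemma prodSet_eq {S : Type u} [Semigroup S] (A : Set S) (n : ℕ) :
    prodSet A n = Pool.Agent.R506.ProdInt.prodSet A n := by
  match n with
  | 0 => rfl
  | 1 => rfl
  | n + 2 =>
    unfold prodSet Pool.Agent.R506.ProdInt.prodSet
    rw [prodSet_eq A (n + 1)]

theorem result (Q : Type v) [Infinite Q] (X : Set ℕ+) : X ∈ HQ.{u, v} Q ↔ 1 ∈ X := by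
  classical
  constructor
  · rintro ⟨S, _, A, -, rfl⟩
    rfl
  · intro h1
    obtain ⟨f⟩ : Nonempty (ℕ ↪ Q) := ⟨Infinite.natEmbedding Q⟩
    set π : Q → ℕ := Function.invFun f with hπ
    have hs : Function.Surjective π := Function.invFun_surjective f.injective
    set Y : Set ℕ := {n | ∃ h : ℕ+, h ∈ X ∧ (h : ℕ) = n} with hY
    have h1Y : 1 ∈ Y := ⟨1, h1, rfl⟩
    set A : ℕ → Set Pool.Agent.R506.ProdInt.El.{u} := Pool.Agent.R506.ProdInt.As Y with hA
    refine ⟨Pool.Agent.R506.ProdInt.El.{u}, inferInstance, fun q => A (π q), ?_, ?_⟩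
    · have hr : (Set.range fun q => A (π q)) = Set.range A := hs.range_comp A
      rw [hr]
      exact Set.infinite_range_of_injective (Pool.Agent.R506.ProdInt.strictAnti_As Y).injective
    · ext h
      have key := Pool.Agent.R506.ProdInt.eq_iff.{u} Y h1Y h h.2
      have e1 : (⋂ q, A (π q)) = ⋂ n, A n := hs.iInter_comp A
      have e2 : (⋂ q, prodSet (A (π q)) h) = ⋂ n, prodSet (A n) h :=
        hs.iInter_comp (fun n => prodSet (A n) h)
      show h ∈ X ↔ prodSet (⋂ q, A (π q)) h = ⋂ q, prodSet (A (π q)) h
      rw [e1, e2]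
      simp only [prodSet_eq]
      rw [key]
      constructor
      · intro hX
        exact ⟨h, hX, rfl⟩
      · rintro ⟨h', hX, he⟩
        rw [← PNat.coe_injective he]
        exact hX

end Pool.Agent.Results.MP_57f2ab_co.AllSets
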